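import Pool.Agent.H77.PM.Targets

/-!
# MP_5607ba_lc: hereditary classes of Polish metric structures, row (THR)
-/

set_option autoImplicit false

open Set Filter Topology

namespace Pool.Agent.H13.PM

open Pool.Agent.H77.PM

/-- (THR) -/
theorem pf_THR (hPER : T_PER) (hTIL : T_TIL) (hISA : T_ISA) (hISB : T_ISB) (hCLF : T_CLF)
    (hSUBC : T_SUBC) : T_THR := by
  intro r hD3 ι _ ar hr Z _ _ _ _ x hx
  obtain ⟨S, p, hp, hxp⟩ := hx
  obtain ⟨hdec, htil, -, hmdec⟩ := hTIL ι ar Z r hr
  by_cases hfd : FD x
  · -- finitely many distances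
    have key : ∀ y ∈ Sub x, ∃ f : ℕ → ℕ, Function.Injective f ∧ y = re x f := by
      rintro y ⟨S', p', q, hp', hx', hq, hy⟩
      have hcl : IsClosed (range p') := by
        refine hCLF S'.M p' ?_
        have : {d : ℝ | ∃ i j, dist (p' i) (p' j) = d} = {d : ℝ | ∃ i j, x.1 i j = d} := by
          rw [hx']
          rfl
        rw [this]
        exact hfd
      have huniv : range p' = univ := by
        rw [← hcl.closure_eq]
        exact hp'.2.closure_range
      have hex : ∀ i, ∃ j, p' j = q i := fun i => by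
        have : q i ∈ range p' := by
          rw [huniv]
          trivial
        exact this
      choose f hf using hex
      refine ⟨f, ?_, ?_⟩
      · intro a b e
        apply hq
        rw [← hf a, ← hf b, e]
      · have hqf : q = p' ∘ f := by
          funext i
          exact (hf i).symm
        rw [hy, hx', hqf]
        rfl
    have hsubst : ∀ y ∈ Sub x, til r hr y ∈ Substructures (til r hr x) := by
      intro y hy
      obtain ⟨f, hf, rfl⟩ := key y hy
      exact ⟨f, hf, htil x f⟩
    have hfdre : ∀ f : ℕ → ℕ, FD (re x f) := by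
      intro f
      refine hfd.subset ?_
      rintro d ⟨i, j, h⟩
      exact ⟨f i, f j, h⟩
    rcases hD3 (ℝ × (ι → Z)) (til r hr x) with ⟨D, hD, hDc⟩ | ⟨F, hF, hFm, hFn⟩
    · left
      refine ⟨dec r '' D, hD.image _, ?_⟩
      intro y hy
      obtain ⟨w, hw, g, hg⟩ := hDc _ (hsubst y hy)
      obtain ⟨S', p', q, hp', hx', hq, hyq⟩ := hy
      obtain ⟨T, hT⟩ := hSUBC ι ar Z S' q hq
      rw [← hyq] at hT
      exact ⟨dec r w, ⟨w, hw, rfl⟩, (hISB ι ar Z r hr T y w g hT hg).2.1⟩
    · right
      have hFr : ∀ u, ∃ f : ℕ → ℕ, Function.Injective f ∧ F u = til r hr (re x f) := by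
        intro u
        obtain ⟨f, hf, e⟩ := hFm u
        exact ⟨f, hf, by rw [htil x f]; exact e⟩
      refine ⟨fun u => dec r (F u), hmdec.comp hF, ?_, ?_⟩
      · intro u
        obtain ⟨f, hf, e⟩ := hFr u
        have e2 : dec (ι := ι) (ar := ar) (Z := Z) r (F u) = re x f := by rw [e, hdec]
        show dec r (F u) ∈ Sub x
        rw [e2]
        refine ⟨S, p, p ∘ f, hp, hxp, hp.1.comp hf, ?_⟩
        rw [hxp]
        rfl
      · intro u v huv hs
        obtain ⟨f, hf, e⟩ := hFr u
        obtain ⟨f', hf', e'⟩ := hFr v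
        have e2 : dec (ι := ι) (ar := ar) (Z := Z) r (F u) = re x f := by rw [e, hdec]
        have e2' : dec (ι := ι) (ar := ar) (Z := Z) r (F v) = re x f' := by rw [e', hdec]
        have hs' : Same (re x f) (re x f') := by
          rw [← e2, ← e2']
          exact hs
        obtain ⟨-, g, hg⟩ := hISA ι ar Z r hr _ _ (hfdre f) hs'
        apply hFn u v huv
        rw [e, e']
        exact ⟨g, hg⟩
  · -- infinitely many distances
    right
    refine hPER ι ar Z S p 0 (Sub x) hp.1 ?_ ?_
    · intro hfin
      apply hfd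
      refine hfin.subset ?_
      rintro d ⟨i, j, h⟩
      refine ⟨(p i, p j), ?_⟩
      show dist (p i) (p j) = d
      rw [← h, hxp]
      rfl
    · intro q hq _
      exact ⟨S, p, q, hp, hxp, hq, rfl⟩

end Pool.Agent.H13.PM
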